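import Mathlib

set_option autoImplicit false

/-!
Linear interpolation on the cube: definitions and the formula for the norm of the projector.
-/

namespace Pool.Agent.H37.Cube

open scoped BigOperators

/-- The cube `[0,1]^n`. -/
abbrev Q (n : ℕ) : Set (Fin n → ℝ) := Set.Icc 0 1

/-- The set of nodes: the vertices of a nondegenerate simplex of dimension `n`, written as an affine
basis of `ℝ^n`. Its `j`-th barycentric coordinate function `S.coord j` is the basic Lagrange
polynomial, the polynomial of degree at most `1` which is `1` at `S j` and `0` at the other nodes. -/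
abbrev Nodes (n : ℕ) : Type := AffineBasis (Fin (n + 1)) ℝ (Fin n → ℝ)

/-- The restriction to the cube of the `j`-th basic Lagrange polynomial. -/
noncomputable def lag {n : ℕ} (S : Nodes n) (j : Fin (n + 1)) : C(Q n, ℝ) :=
  ⟨fun t => S.coord j t, ((S.coord j).continuous_of_finiteDimensional).comp continuous_subtype_val⟩

/-- The interpolation projector `P f = ∑ f(x_j) λ_j`, as a bounded linear operator of `C([0,1]^n)`
with the sup norm. -/
noncomputable def proj {n : ℕ} (S : Nodes n) (hS : ∀ j, S j ∈ Q n) :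
    C(Q n, ℝ) →L[ℝ] C(Q n, ℝ) :=
  ∑ j, (ContinuousMap.evalCLM ℝ (⟨S j, hS j⟩ : Q n)).smulRight (lag S j)

/-- `θ_n`: the least norm of an interpolation projector, over all nondegenerate simplices contained
in the cube. -/
noncomputable def theta (n : ℕ) : ℝ :=
  sInf {r | ∃ (S : Nodes n) (hS : ∀ j, S j ∈ Q n), r = ‖proj S hS‖}

theorem proj_apply {n : ℕ} (S : Nodes n) (hS : ∀ j, S j ∈ Q n) (f : C(Q n, ℝ)) (t : Q n) :
    proj S hS f t = ∑ j, f ⟨S j, hS j⟩ * S.coord j t := by
  simp [proj, lag, ContinuousMap.evalCLM]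

theorem sum_le_norm {n : ℕ} (S : Nodes n) (hS : ∀ j, S j ∈ Q n) (t : Q n) :
    ∑ j, |S.coord j t| ≤ ‖proj S hS‖ := by
  classical
  let e : Fin (n + 1) → Q n := fun j => ⟨S j, hS j⟩
  have he : Topology.IsClosedEmbedding e := by
    refine Continuous.isClosedEmbedding continuous_of_discreteTopology ?_
    intro i j hij
    exact S.ind.injective (congrArg Subtype.val hij)
  let g0 : BoundedContinuousFunction (Fin (n + 1)) ℝ :=
    BoundedContinuousFunction.mkOfCompact
      ⟨fun j => if 0 ≤ S.coord j t then 1 else -1, continuous_of_discreteTopology⟩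
  have hg0 : ‖g0‖ ≤ 1 := by
    rw [BoundedContinuousFunction.norm_le zero_le_one]
    intro j
    simp only [g0, BoundedContinuousFunction.mkOfCompact_apply, ContinuousMap.coe_mk]
    split_ifs <;> simp
  obtain ⟨g, hg1, hg2⟩ := BoundedContinuousFunction.exists_extension_norm_eq_of_isClosedEmbedding
    g0 he
  let f : C(Q n, ℝ) := g.toContinuousMap
  have hf : ‖f‖ ≤ 1 := by
    rw [ContinuousMap.norm_le _ zero_le_one]
    intro x
    exact (g.norm_coe_le_norm x).trans (hg1.le.trans hg0)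
  have hval : ∀ j, f ⟨S j, hS j⟩ * S.coord j t = |S.coord j t| := by
    intro j
    have h1 : g (e j) = g0 j := congrFun hg2 j
    have h2 : f ⟨S j, hS j⟩ = if 0 ≤ S.coord j t then 1 else -1 := h1
    rw [h2]
    split_ifs with h
    · rw [one_mul, abs_of_nonneg h]
    · rw [neg_one_mul, abs_of_neg (not_le.1 h)]
  calc ∑ j, |S.coord j t| = proj S hS f t := by
        rw [proj_apply]
        exact Finset.sum_congr rfl fun j _ => (hval j).symm
    _ ≤ ‖proj S hS f t‖ := Real.le_norm_self _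
    _ ≤ ‖proj S hS f‖ := ContinuousMap.norm_coe_le_norm _ _
    _ ≤ ‖proj S hS‖ * ‖f‖ := (proj S hS).le_opNorm f
    _ ≤ ‖proj S hS‖ * 1 := by
        exact mul_le_mul_of_nonneg_left hf (ContinuousLinearMap.opNorm_nonneg _)
    _ = _ := mul_one _

theorem norm_le_of {n : ℕ} (S : Nodes n) (hS : ∀ j, S j ∈ Q n) {c : ℝ}
    (h : ∀ t ∈ Q n, ∑ j, |S.coord j t| ≤ c) : ‖proj S hS‖ ≤ c := by
  have h0 : (0 : Fin n → ℝ) ∈ Q n := ⟨le_refl _, zero_le_one⟩
  have hc : 0 ≤ c := (Finset.sum_nonneg fun j _ => abs_nonneg _).trans (h 0 h0)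
  refine ContinuousLinearMap.opNorm_le_bound _ hc fun f => ?_
  rw [ContinuousMap.norm_le _ (mul_nonneg hc (norm_nonneg _))]
  intro t
  rw [proj_apply, Real.norm_eq_abs]
  calc |∑ j, f ⟨S j, hS j⟩ * S.coord j t| ≤ ∑ j, |f ⟨S j, hS j⟩ * S.coord j t| :=
        Finset.abs_sum_le_sum_abs _ _
    _ ≤ ∑ j, ‖f‖ * |S.coord j t| := by
        refine Finset.sum_le_sum fun j _ => ?_
        rw [abs_mul]
        refine mul_le_mul_of_nonneg_right ?_ (abs_nonneg _)
        exact f.norm_coe_le_norm _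
    _ = ‖f‖ * ∑ j, |S.coord j t| := by rw [Finset.mul_sum]
    _ ≤ ‖f‖ * c := mul_le_mul_of_nonneg_left (h t t.2) (norm_nonneg _)
    _ = c * ‖f‖ := mul_comm _ _

theorem theta_le {n : ℕ} (S : Nodes n) (hS : ∀ j, S j ∈ Q n) {c : ℝ}
    (h : ∀ t ∈ Q n, ∑ j, |S.coord j t| ≤ c) : theta n ≤ c := by
  have hb : BddBelow {r | ∃ (S : Nodes n) (hS : ∀ j, S j ∈ Q n), r = ‖proj S hS‖} := by
    refine ⟨0, ?_⟩
    rintro r ⟨S', hS', rfl⟩
    exact ContinuousLinearMap.opNorm_nonneg _
  have h1 : theta n ≤ ‖proj S hS‖ := csInf_le hb ⟨S, hS, rfl⟩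
  exact h1.trans (norm_le_of S hS h)

end Pool.Agent.H37.Cube
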