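import Mathlib
import Pool.Agent.H37.Cube.Defs

set_option autoImplicit false

/-!
Simplices from dual systems of affine functions.
-/

namespace Pool.Agent.H37.Cube

open Finset

/-- The affine function `t ↦ c + ∑ b i * t i`. -/
noncomputable def aff {n : ℕ} (c : ℝ) (b : Fin n → ℝ) : (Fin n → ℝ) →ᵃ[ℝ] ℝ :=
  (∑ i, b i • (LinearMap.proj i : (Fin n → ℝ) →ₗ[ℝ] ℝ)).toAffineMap + AffineMap.const ℝ _ c

theorem aff_apply {n : ℕ} (c : ℝ) (b t : Fin n → ℝ) : aff c b t = c + ∑ i, b i * t i := by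
  simp [aff, add_comm]

theorem affine_sum {n : ℕ} {ι : Type} (s : Finset ι) (l : (Fin n → ℝ) →ᵃ[ℝ] ℝ) (w : ι → ℝ)
    (p : ι → Fin n → ℝ) : ∑ k ∈ s, w k * l (p k) = l.linear (∑ k ∈ s, w k • p k) +
      (∑ k ∈ s, w k) * l 0 := by
  rw [map_sum, Finset.sum_mul, ← Finset.sum_add_distrib]
  refine Finset.sum_congr rfl fun k _ => ?_
  rw [map_smul, smul_eq_mul, ← mul_add]
  congr 1
  have h := congrFun (AffineMap.decomp l) (p k)
  rw [h]
  rfl

theorem exists_nodes {n : ℕ} (p : Fin (n + 1) → (Fin n → ℝ))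
    (l : Fin (n + 1) → ((Fin n → ℝ) →ᵃ[ℝ] ℝ))
    (h : ∀ j k, l j (p k) = if j = k then 1 else 0) :
    ∃ S : Nodes n, (∀ j, S j = p j) ∧ ∀ j t, S.coord j t = l j t := by
  classical
  have hind : AffineIndependent ℝ p := by
    rw [affineIndependent_iff]
    intro s w hw hs e he
    have h1 := affine_sum s (l e) w p
    rw [hs, hw, map_zero, zero_mul, add_zero] at h1
    simp only [h, mul_ite, mul_one, mul_zero] at h1
    rw [Finset.sum_ite_eq, if_pos he] at h1
    exact h1
  have htop : affineSpan ℝ (Set.range p) = ⊤ := by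
    rw [hind.affineSpan_eq_top_iff_card_eq_finrank_add_one]
    simp
  let S : Nodes n := ⟨p, hind, htop⟩
  refine ⟨S, fun j => rfl, fun j t => ?_⟩
  have h1 := affine_sum Finset.univ (l j) (fun k => S.coord k t) p
  have h2 : ∑ k, S.coord k t • p k = t := S.linear_combination_coord_eq_self t
  have h3 : ∑ k, S.coord k t = 1 := S.sum_coord_apply_eq_one t
  rw [h2, h3, one_mul] at h1
  simp only [h, mul_ite, mul_one, mul_zero] at h1
  rw [Finset.sum_ite_eq, if_pos (Finset.mem_univ j)] at h1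
  rw [h1]
  have h4 := congrFun (AffineMap.decomp (l j)) t
  rw [h4]
  rfl

theorem nodes_nonempty (n : ℕ) :
    {r | ∃ (S : Nodes n) (hS : ∀ j, S j ∈ Q n), r = ‖proj S hS‖}.Nonempty := by
  classical
  let p : Fin (n + 1) → (Fin n → ℝ) := Fin.cons 0 (fun i => Pi.single i 1)
  let l : Fin (n + 1) → ((Fin n → ℝ) →ᵃ[ℝ] ℝ) :=
    Fin.cons (aff 1 (fun _ => -1)) (fun i => aff 0 (Pi.single i 1))
  have h : ∀ j k, l j (p k) = if j = k then 1 else 0 := by
    intro j k
    refine Fin.cases ?_ (fun j => ?_) j <;> refine Fin.cases ?_ (fun k => ?_) k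
    · simp [l, p, aff_apply]
    · have : (0 : Fin (n + 1)) ≠ k.succ := (Fin.succ_ne_zero k).symm
      simp [l, p, aff_apply, this]
    · simp [l, p, aff_apply]
    · simp only [l, p, Fin.cons_succ, aff_apply, zero_add, Fin.succ_inj]
      rw [Finset.sum_eq_single j]
      · rw [Pi.single_eq_same, one_mul, Pi.single_apply]
      · intro i _ hi
        rw [Pi.single_eq_of_ne hi, zero_mul]
      · intro h
        exact absurd (Finset.mem_univ j) h
  obtain ⟨S, hS, -⟩ := exists_nodes p l h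
  refine ⟨_, S, ?_, rfl⟩
  intro j
  rw [hS j]
  refine Fin.cases ?_ (fun j => ?_) j
  · exact ⟨le_refl _, zero_le_one⟩
  · constructor
    · intro i
      simp only [p, Fin.cons_succ]
      by_cases hi : i = j
      · subst hi; simp
      · simp [Pi.single_eq_of_ne hi]
    · intro i
      simp only [p, Fin.cons_succ]
      by_cases hi : i = j
      · subst hi; simp
      · simp [Pi.single_eq_of_ne hi]

end Pool.Agent.H37.Cube
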