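import Mathlib

set_option autoImplicit false

/-!
Multiplicative density of the numbers `2^a * 12^b`.
-/

namespace Pool.Agent.H37.Cube

theorem grid {u w p q : ℕ} {ρ : ℝ} (hu : 2 ≤ u) (hw : 1 ≤ w) (h1 : u ^ p < w ^ q)
    (h2 : (w : ℝ) ^ q < ρ * (u : ℝ) ^ p) :
    ∃ N0 : ℕ, ∀ N ≥ N0, ∃ a b : ℕ, u ^ a * w ^ b ≤ N ∧ (N : ℝ) < ρ * ((u ^ a * w ^ b : ℕ) : ℝ) := by
  have hu0 : (0 : ℝ) < u := by
    have : 0 < u := by omega
    exact_mod_cast this
  obtain ⟨m, hm⟩ : ∃ m : ℕ, u * (u ^ p) ^ m ≤ (w ^ q) ^ m := by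
    have hr : 1 < (w : ℝ) ^ q / (u : ℝ) ^ p := by
      rw [one_lt_div (by positivity)]
      exact_mod_cast h1
    obtain ⟨m, hm⟩ := pow_unbounded_of_one_lt (u : ℝ) hr
    refine ⟨m, ?_⟩
    rw [div_pow, lt_div_iff₀ (by positivity)] at hm
    exact_mod_cast hm.le
  refine ⟨u ^ (p * m), fun N hN => ?_⟩
  have hN0 : N ≠ 0 := by
    have : 0 < u ^ (p * m) := by positivity
    omega
  set a := Nat.log u N with ha
  have ha1 : u ^ a ≤ N := Nat.pow_log_le_self u hN0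
  have ha2 : N < u ^ (a + 1) := Nat.lt_pow_succ_log_self (by omega) N
  have hpm : p * m ≤ a := by
    have h3 : u ^ (p * m) < u ^ (a + 1) := lt_of_le_of_lt hN ha2
    have := (Nat.pow_lt_pow_iff_right (by omega : 1 < u)).1 h3
    omega
  have hex : ∃ i, N < u ^ (a - p * i) * w ^ (q * i) ∧ i ≤ m := by
    refine ⟨m, ?_, le_rfl⟩
    calc N < u ^ (a + 1) := ha2
      _ = u ^ (a - p * m) * (u * (u ^ p) ^ m) := by
        rw [← pow_mul, ← pow_succ', ← pow_add]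
        congr 1
        omega
      _ ≤ u ^ (a - p * m) * (w ^ q) ^ m := Nat.mul_le_mul_left _ hm
      _ = _ := by rw [← pow_mul]
  classical
  obtain ⟨hi1, hi2⟩ := Nat.find_spec hex
  set i := Nat.find hex with hi
  have hi0 : i ≠ 0 := by
    intro h0
    rw [h0] at hi1
    simp at hi1
    omega
  obtain ⟨k, hk⟩ := Nat.exists_eq_succ_of_ne_zero hi0
  have hk1 : ¬ (N < u ^ (a - p * k) * w ^ (q * k) ∧ k ≤ m) := Nat.find_min hex (by omega)
  have hk2 : u ^ (a - p * k) * w ^ (q * k) ≤ N := by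
    by_contra h
    exact hk1 ⟨not_le.1 h, by omega⟩
  refine ⟨a - p * k, q * k, hk2, ?_⟩
  rw [hk] at hi1 hi2
  have h3 : p * (k + 1) ≤ a := le_trans (Nat.mul_le_mul_left p hi2) hpm
  have h4 : a - p * k = (a - p * (k + 1)) + p := by
    have : p * (k + 1) = p * k + p := by ring
    omega
  have h5 : (N : ℝ) < (u : ℝ) ^ (a - p * (k + 1)) * (w : ℝ) ^ (q * (k + 1)) := by
    exact_mod_cast hi1
  rw [h4]
  push_cast
  have h6 : (w : ℝ) ^ (q * (k + 1)) = (w : ℝ) ^ (q * k) * (w : ℝ) ^ q := by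
    rw [← pow_add]
    congr 1
  have hw0 : (0 : ℝ) < w := by exact_mod_cast hw
  calc (N : ℝ) < (u : ℝ) ^ (a - p * (k + 1)) * (w : ℝ) ^ (q * (k + 1)) := h5
    _ = (u : ℝ) ^ (a - p * (k + 1)) * (w : ℝ) ^ (q * k) * (w : ℝ) ^ q := by rw [h6]; ring
    _ ≤ (u : ℝ) ^ (a - p * (k + 1)) * (w : ℝ) ^ (q * k) * (ρ * (u : ℝ) ^ p) :=
      mul_le_mul_of_nonneg_left h2.le (by positivity)
    _ = ρ * ((u : ℝ) ^ (a - p * (k + 1) + p) * (w : ℝ) ^ (q * k)) := by
      rw [pow_add]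
      ring

theorem pow_ne {k j : ℕ} (hk : 0 < k) : (12 : ℕ) ^ k ≠ 2 ^ j := by
  intro h
  have h3 : 3 ∣ 2 ^ j := by
    rw [← h]
    exact dvd_pow (by norm_num) hk.ne'
  have := (Nat.prime_three.dvd_of_dvd_pow h3)
  omega

theorem close_powers {ρ : ℝ} (hρ : 1 < ρ) : ∃ k j : ℕ, 0 < k ∧
    ((12 : ℝ) ^ k < ρ * 2 ^ j ∧ (2 : ℝ) ^ j < ρ * 12 ^ k) := by
  have hlog2 : 0 < Real.log 2 := Real.log_pos (by norm_num)
  have hlog12 : 0 < Real.log 12 := Real.log_pos (by norm_num)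
  have hlogρ : 0 < Real.log ρ := Real.log_pos hρ
  obtain ⟨n, hn⟩ := exists_nat_gt (Real.log 2 / Real.log ρ)
  have hn' : 0 < n + 1 := Nat.succ_pos n
  obtain ⟨j, k, hk0, -, hjk⟩ := Real.exists_int_int_abs_mul_sub_le (Real.log 12 / Real.log 2) hn'
  have hb : 1 / (((n + 1 : ℕ) : ℝ) + 1) < Real.log ρ / Real.log 2 := by
    rw [div_lt_div_iff₀ (by positivity) hlog2, one_mul]
    rw [div_lt_iff₀ hlogρ] at hn
    push_cast
    nlinarith
  have h1 : |(k : ℝ) * (Real.log 12 / Real.log 2) - j| < Real.log ρ / Real.log 2 := by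
    refine lt_of_le_of_lt ?_ hb
    exact hjk
  have h2 : |(k : ℝ) * Real.log 12 - j * Real.log 2| < Real.log ρ := by
    have h3 : (k : ℝ) * Real.log 12 - j * Real.log 2 =
        ((k : ℝ) * (Real.log 12 / Real.log 2) - j) * Real.log 2 := by
      field_simp
    rw [h3, abs_mul, abs_of_pos hlog2]
    rwa [lt_div_iff₀ hlog2] at h1
  have hj0 : 0 ≤ j := by
    by_contra hj
    have hj' : j ≤ -1 := by omega
    have hj2 : (j : ℝ) ≤ -1 := by exact_mod_cast hj'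
    have hk2 : (1 : ℝ) ≤ k := by exact_mod_cast hk0
    have h4 := (le_abs_self _).trans hjk
    have h5 : 0 ≤ (k : ℝ) * (Real.log 12 / Real.log 2) := by positivity
    have h6 : 1 / (((n + 1 : ℕ) : ℝ) + 1) < 1 := by
      rw [div_lt_one (by positivity)]
      push_cast
      have : (0 : ℝ) ≤ n := Nat.cast_nonneg n
      linarith
    linarith
  obtain ⟨K, rfl⟩ := Int.eq_ofNat_of_zero_le hk0.le
  obtain ⟨J, rfl⟩ := Int.eq_ofNat_of_zero_le hj0
  refine ⟨K, J, by exact_mod_cast hk0, ?_⟩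
  have h2' : |(K : ℝ) * Real.log 12 - (J : ℝ) * Real.log 2| < Real.log ρ := by exact_mod_cast h2
  rw [abs_lt] at h2'
  have hρ0 : 0 < ρ := by linarith
  constructor
  · rw [← Real.log_lt_log_iff (by positivity) (by positivity), Real.log_mul (by positivity)
      (by positivity), Real.log_pow, Real.log_pow]
    linarith [h2'.2]
  · rw [← Real.log_lt_log_iff (by positivity) (by positivity), Real.log_mul (by positivity)
      (by positivity), Real.log_pow, Real.log_pow]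
    linarith [h2'.1]

/-- The numbers `2^a * 12^b` are dense in the multiplicative sense. -/
theorem dense_orders {ρ : ℝ} (hρ : 1 < ρ) : ∃ N0 : ℕ, ∀ N ≥ N0, ∃ a b : ℕ,
    2 ^ a * 12 ^ b ≤ N ∧ (N : ℝ) < ρ * ((2 ^ a * 12 ^ b : ℕ) : ℝ) := by
  obtain ⟨k, j, hk, h1, h2⟩ := close_powers hρ
  rcases Nat.lt_or_gt_of_ne (pow_ne (k := k) (j := j) hk) with h | h
  · have h2' : ((2 : ℕ) : ℝ) ^ j < ρ * ((12 : ℕ) : ℝ) ^ k := by exact_mod_cast h2
    obtain ⟨N0, hN0⟩ := grid (u := 12) (w := 2) (p := k) (q := j) (by norm_num) (by norm_num) h h2'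
    refine ⟨N0, fun N hN => ?_⟩
    obtain ⟨a, b, hab1, hab2⟩ := hN0 N hN
    refine ⟨b, a, ?_, ?_⟩
    · rwa [mul_comm]
    · rwa [mul_comm (2 ^ b)]
  · have h1' : ((12 : ℕ) : ℝ) ^ k < ρ * ((2 : ℕ) : ℝ) ^ j := by exact_mod_cast h1
    exact grid (u := 2) (w := 12) (p := j) (q := k) le_rfl (by norm_num) h h1'

end Pool.Agent.H37.Cube
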