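import Mathlib

set_option autoImplicit false

/-!
Dual systems for the cube, gluing, Hadamard matrices.
-/

namespace Pool.Agent.H37.Cube

open Finset

/-- A system of vectors `a j` of the cube `[-1,1]^ι` with `o`-th coordinate `1`, with dual system
`L`, such that the sum of the absolute values of the coordinates of a point of the cube in the basis
`a` is at most `c`. -/
def Sys (ι : Type) [Fintype ι] [DecidableEq ι] (c : ℝ) : Prop :=
  ∃ (a L : ι → ι → ℝ) (o : ι), (∀ j i, |a j i| ≤ 1) ∧ (∀ j, a j o = 1) ∧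
    (∀ j k, ∑ i, L j i * a k i = if j = k then 1 else 0) ∧ (∑ j, |L j o| ≤ 1) ∧
    (∀ x : ι → ℝ, (∀ i, |x i| ≤ 1) → ∑ j, |∑ i, L j i * x i| ≤ c)

theorem Sys.mono {ι : Type} [Fintype ι] [DecidableEq ι] {c c' : ℝ} (h : Sys ι c) (hc : c ≤ c') :
    Sys ι c' := by
  obtain ⟨a, L, o, h1, h2, h3, h4, h5⟩ := h
  exact ⟨a, L, o, h1, h2, h3, h4, fun x hx => (h5 x hx).trans hc⟩

theorem Sys.congr {ι κ : Type} [Fintype ι] [DecidableEq ι] [Fintype κ] [DecidableEq κ] {c : ℝ}
    (e : κ ≃ ι) (h : Sys ι c) : Sys κ c := by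
  obtain ⟨a, L, o, h1, h2, h3, h4, h5⟩ := h
  refine ⟨fun j i => a (e j) (e i), fun j i => L (e j) (e i), e.symm o, fun j i => h1 _ _,
    fun j => ?_, fun j k => ?_, ?_, fun x hx => ?_⟩
  · simp only [Equiv.apply_symm_apply]
    exact h2 _
  · rw [Equiv.sum_comp e (fun i => L (e j) i * a (e k) i), h3]
    simp only [EmbeddingLike.apply_eq_iff_eq]
  · simp only [Equiv.apply_symm_apply]
    rw [Equiv.sum_comp e (fun j => |L j o|)]
    exact h4
  · have h6 := h5 (fun i => x (e.symm i)) (fun i => hx _)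
    rw [← Equiv.sum_comp e] at h6
    refine le_trans (le_of_eq ?_) h6
    refine Finset.sum_congr rfl fun j _ => ?_
    rw [← Equiv.sum_comp e (fun i => L (e j) i * x (e.symm i))]
    simp only [Equiv.symm_apply_apply]

theorem Sys.glue {ι κ : Type} [Fintype ι] [DecidableEq ι] [Fintype κ] [DecidableEq κ] {c d : ℝ}
    (h : Sys ι c) (g : Sys κ d) : Sys (ι ⊕ κ) (c + d + 1) := by
  obtain ⟨a, L, o, h1, h2, h3, h4, h5⟩ := h
  obtain ⟨b, M, u, g1, g2, g3, g4, g5⟩ := g
  let A : ι ⊕ κ → ι ⊕ κ → ℝ := Sum.elim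
    (fun j => Sum.elim (fun i => a j i) (fun _ => 0))
    (fun j => Sum.elim (fun i => if i = o then 1 else 0) (fun i => b j i))
  let B : ι ⊕ κ → ι ⊕ κ → ℝ := Sum.elim
    (fun j => Sum.elim (fun i => L j i) (fun i => if i = u then -L j o else 0))
    (fun j => Sum.elim (fun _ => 0) (fun i => M j i))
  refine ⟨A, B, Sum.inl o, ?_, ?_, ?_, ?_, ?_⟩
  · rintro (j | j) (i | i)
    · exact h1 j i
    · simp [A]
    · simp only [A, Sum.elim_inr, Sum.elim_inl]
      split_ifs <;> simp
    · exact g1 j i
  · rintro (j | j)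
    · exact h2 j
    · simp [A]
  · rintro (j | j) (k | k)
    · simp only [A, B, Fintype.sum_sum_type, Sum.elim_inl, Sum.elim_inr, mul_zero,
        Finset.sum_const_zero, add_zero, h3, Sum.inl.injEq]
    · simp only [A, B, Fintype.sum_sum_type, Sum.elim_inl, Sum.elim_inr, mul_ite, mul_one,
        mul_zero, ite_mul, zero_mul, Finset.sum_ite_eq', Finset.mem_univ, if_true, g2]
      simp
    · simp only [A, B, Fintype.sum_sum_type, Sum.elim_inl, Sum.elim_inr, mul_zero, zero_mul,
        Finset.sum_const_zero, add_zero]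
      simp
    · simp only [A, B, Fintype.sum_sum_type, Sum.elim_inl, Sum.elim_inr, zero_mul,
        Finset.sum_const_zero, zero_add, g3, Sum.inr.injEq]
  · simp only [B, Fintype.sum_sum_type, Sum.elim_inl, Sum.elim_inr, abs_zero,
      Finset.sum_const_zero, add_zero]
    exact h4
  · intro x hx
    rw [Fintype.sum_sum_type]
    have e1 : ∀ j, ∑ i, B (Sum.inl j) i * x i =
        ∑ i, L j i * x (Sum.inl i) - L j o * x (Sum.inr u) := by
      intro j
      simp only [B, Fintype.sum_sum_type, Sum.elim_inl, Sum.elim_inr, ite_mul, zero_mul,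
        Finset.sum_ite_eq', Finset.mem_univ, if_true]
      ring
    have e2 : ∀ j, ∑ i, B (Sum.inr j) i * x i = ∑ i, M j i * x (Sum.inr i) := by
      intro j
      simp only [B, Fintype.sum_sum_type, Sum.elim_inl, Sum.elim_inr, zero_mul,
        Finset.sum_const_zero, zero_add]
    simp_rw [e1, e2]
    have b1 : ∑ j, |∑ i, L j i * x (Sum.inl i) - L j o * x (Sum.inr u)| ≤ c + 1 := by
      calc _ ≤ ∑ j, (|∑ i, L j i * x (Sum.inl i)| + |L j o|) := by
            refine Finset.sum_le_sum fun j _ => ?_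
            refine (abs_sub _ _).trans (add_le_add le_rfl ?_)
            rw [abs_mul]
            exact mul_le_of_le_one_right (abs_nonneg _) (hx _)
        _ = ∑ j, |∑ i, L j i * x (Sum.inl i)| + ∑ j, |L j o| := Finset.sum_add_distrib
        _ ≤ c + 1 := add_le_add (h5 _ fun i => hx _) h4
    have b2 : ∑ j, |∑ i, M j i * x (Sum.inr i)| ≤ d := g5 _ fun i => hx _
    linarith

/-- A Hadamard matrix with one column constant equal to `1`. -/
def Had (ι : Type) [Fintype ι] [DecidableEq ι] : Prop :=
  ∃ (H : ι → ι → ℝ) (o : ι), (∀ j i, H j i = 1 ∨ H j i = -1) ∧ (∀ j, H j o = 1) ∧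
    ∀ j k, ∑ i, H j i * H k i = if j = k then (Fintype.card ι : ℝ) else 0

theorem Had.sys {ι : Type} [Fintype ι] [DecidableEq ι] (h : Had ι) :
    Sys ι (Real.sqrt (Fintype.card ι)) := by
  obtain ⟨H, o, h1, h2, h3⟩ := h
  have hne : Nonempty ι := ⟨o⟩
  set N : ℝ := (Fintype.card ι : ℝ) with hN
  have hN0 : 0 < N := by
    rw [hN]
    exact_mod_cast Fintype.card_pos
  refine ⟨H, fun j i => H j i / N, o, ?_, h2, ?_, ?_, ?_⟩
  · intro j i
    rcases h1 j i with h | h <;> rw [h] <;> simp
  · intro j k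
    have : ∑ i, H j i / N * H k i = (∑ i, H j i * H k i) / N := by
      rw [Finset.sum_div]
      exact Finset.sum_congr rfl fun i _ => by ring
    rw [this, h3]
    split_ifs
    · exact div_self hN0.ne'
    · simp
  · simp_rw [h2]
    rw [Finset.sum_const, Finset.card_univ, nsmul_eq_mul, abs_of_pos (by positivity)]
    rw [mul_one_div_cancel hN0.ne']
  · intro x hx
    -- the other product
    have hmul : (Matrix.of H) * (N⁻¹ • (Matrix.of H).transpose) = 1 := by
      ext j k
      rw [Matrix.mul_smul, Matrix.smul_apply, Matrix.mul_apply, Matrix.one_apply]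
      simp only [Matrix.transpose_apply, Matrix.of_apply, smul_eq_mul]
      rw [h3]
      split_ifs
      · exact inv_mul_cancel₀ hN0.ne'
      · simp
    have hmul2 := mul_eq_one_comm.1 hmul
    have h4 : ∀ i k, ∑ j, H j i * H j k = if i = k then N else 0 := by
      intro i k
      have h5 := congrFun (congrFun hmul2 i) k
      rw [Matrix.smul_mul, Matrix.smul_apply, Matrix.mul_apply, Matrix.one_apply] at h5
      simp only [Matrix.transpose_apply, Matrix.of_apply, smul_eq_mul] at h5
      have h6 : ∑ j, H j i * H j k = N * (N⁻¹ * ∑ j, H j i * H j k) := by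
        rw [← mul_assoc, mul_inv_cancel₀ hN0.ne', one_mul]
      rw [h6, h5]
      split_ifs <;> simp
    have hsq : ∑ j, (∑ i, H j i * x i) ^ 2 ≤ N * N := by
      calc ∑ j, (∑ i, H j i * x i) ^ 2 = ∑ j, ∑ i, ∑ k, H j i * x i * (H j k * x k) := by
            refine Finset.sum_congr rfl fun j _ => ?_
            rw [sq, Finset.sum_mul_sum]
        _ = ∑ i, ∑ k, x i * x k * ∑ j, H j i * H j k := by
            rw [Finset.sum_comm]
            refine Finset.sum_congr rfl fun i _ => ?_
            rw [Finset.sum_comm]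
            refine Finset.sum_congr rfl fun k _ => ?_
            rw [Finset.mul_sum]
            exact Finset.sum_congr rfl fun j _ => by ring
        _ = ∑ i, N * (x i) ^ 2 := by
            refine Finset.sum_congr rfl fun i _ => ?_
            simp_rw [h4, mul_ite, mul_zero]
            rw [Finset.sum_ite_eq, if_pos (Finset.mem_univ i)]
            ring
        _ ≤ ∑ _i : ι, N * 1 := by
            refine Finset.sum_le_sum fun i _ => mul_le_mul_of_nonneg_left ?_ hN0.le
            rw [sq_le_one_iff_abs_le_one]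
            exact hx i
        _ = N * N := by
            rw [Finset.sum_const, Finset.card_univ, nsmul_eq_mul, mul_one, ← hN]
    have hcs : (∑ j, |∑ i, H j i * x i|) ^ 2 ≤ N * (N * N) := by
      calc (∑ j, |∑ i, H j i * x i|) ^ 2 ≤
            (Finset.univ : Finset ι).card * ∑ j, |∑ i, H j i * x i| ^ 2 :=
            sq_sum_le_card_mul_sum_sq
        _ = N * ∑ j, (∑ i, H j i * x i) ^ 2 := by
            rw [Finset.card_univ, ← hN]
            simp_rw [sq_abs]
        _ ≤ N * (N * N) := mul_le_mul_of_nonneg_left hsq hN0.le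
    have h7 : ∑ j, |∑ i, H j i / N * x i| = (∑ j, |∑ i, H j i * x i|) / N := by
      rw [Finset.sum_div]
      refine Finset.sum_congr rfl fun j _ => ?_
      rw [← abs_of_pos hN0, ← abs_div, abs_of_pos hN0, Finset.sum_div]
      congr 1
      exact Finset.sum_congr rfl fun i _ => by ring
    rw [h7, div_le_iff₀ hN0]
    apply le_of_sq_le_sq _ (by positivity)
    rw [mul_pow, Real.sq_sqrt hN0.le]
    calc _ ≤ _ := hcs
      _ = N * N ^ 2 := by ring

end Pool.Agent.H37.Cube
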