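import Mathlib
import Pool.Agent.H37.Cube.Had

set_option autoImplicit false

/-!
Hadamard matrices of the orders `2^a * 12^b`, a crude bound for all orders.
-/

namespace Pool.Agent.H37.Cube

open Finset

theorem Had.prod {ι κ : Type} [Fintype ι] [DecidableEq ι] [Fintype κ] [DecidableEq κ]
    (h : Had ι) (g : Had κ) : Had (ι × κ) := by
  obtain ⟨H, o, h1, h2, h3⟩ := h
  obtain ⟨G, u, g1, g2, g3⟩ := g
  refine ⟨fun j i => H j.1 i.1 * G j.2 i.2, (o, u), ?_, ?_, ?_⟩
  · intro j i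
    show H j.1 i.1 * G j.2 i.2 = 1 ∨ H j.1 i.1 * G j.2 i.2 = -1
    rcases h1 j.1 i.1 with h | h <;> rcases g1 j.2 i.2 with g | g <;> rw [h, g] <;> simp
  · intro j
    simp only [h2, g2, mul_one]
  · intro j k
    have h4 : ∑ i : ι × κ, H j.1 i.1 * G j.2 i.2 * (H k.1 i.1 * G k.2 i.2) =
        (∑ i, H j.1 i * H k.1 i) * ∑ i, G j.2 i * G k.2 i := by
      rw [Fintype.sum_prod_type, Finset.sum_mul_sum]
      refine Finset.sum_congr rfl fun i _ => Finset.sum_congr rfl fun l _ => ?_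
      ring
    rw [h4, h3, g3]
    by_cases e1 : j.1 = k.1 <;> by_cases e2 : j.2 = k.2
    · rw [if_pos e1, if_pos e2, if_pos (Prod.ext e1 e2), Fintype.card_prod]
      push_cast
      ring
    · rw [if_pos e1, if_neg e2, if_neg (fun h => e2 (congrArg Prod.snd h)), mul_zero]
    · rw [if_neg e1, if_neg (fun h => e1 (congrArg Prod.fst h)), zero_mul]
    · rw [if_neg e1, if_neg (fun h => e1 (congrArg Prod.fst h)), zero_mul]

theorem Had.congr {ι κ : Type} [Fintype ι] [DecidableEq ι] [Fintype κ] [DecidableEq κ]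
    (e : κ ≃ ι) (h : Had ι) : Had κ := by
  obtain ⟨H, o, h1, h2, h3⟩ := h
  refine ⟨fun j i => H (e j) (e i), e.symm o, fun j i => h1 _ _, fun j => ?_, fun j k => ?_⟩
  · simp only [Equiv.apply_symm_apply]
    exact h2 _
  · rw [Equiv.sum_comp e (fun i => H (e j) i * H (e k) i), h3, Fintype.card_congr e]
    simp only [EmbeddingLike.apply_eq_iff_eq]

theorem Had.mul {m n : ℕ} (h : Had (Fin m)) (g : Had (Fin n)) : Had (Fin (m * n)) :=
  (h.prod g).congr finProdFinEquiv.symm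

theorem had_of_int {n : ℕ} (H : Fin n → Fin n → ℤ) (o : Fin n)
    (h1 : ∀ j i, H j i = 1 ∨ H j i = -1) (h2 : ∀ j, H j o = 1)
    (h3 : ∀ j k, ∑ i, H j i * H k i = if j = k then (n : ℤ) else 0) : Had (Fin n) := by
  refine ⟨fun j i => (H j i : ℝ), o, fun j i => ?_, fun j => ?_, fun j k => ?_⟩
  · show (H j i : ℝ) = 1 ∨ (H j i : ℝ) = -1
    rcases h1 j i with h | h <;> rw [h] <;> simp
  · show (H j o : ℝ) = 1
    rw [h2]
    simp
  · have h4 := h3 j k
    have h5 : ((∑ i, H j i * H k i : ℤ) : ℝ) = ((if j = k then (n : ℤ) else 0 : ℤ) : ℝ) := by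
      rw [h4]
    rw [Fintype.card_fin]
    push_cast at h5
    exact h5

theorem had_one : Had (Fin 1) :=
  had_of_int (fun _ _ => 1) 0 (by decide) (by decide) (by decide)

theorem had_two : Had (Fin 2) :=
  had_of_int ![![1, 1], ![1, -1]] 0 (by decide) (by decide) (by decide)

/-- A normalised Hadamard matrix of order `12`. -/
def H12 : Fin 12 → Fin 12 → ℤ :=
  ![![1, 1, 1, 1, 1, 1, 1, 1, 1, 1, 1, 1],
    ![1, -1, -1, 1, -1, -1, -1, 1, 1, 1, -1, 1],
    ![1, 1, -1, -1, 1, -1, -1, -1, 1, 1, 1, -1],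
    ![1, -1, 1, -1, -1, 1, -1, -1, -1, 1, 1, 1],
    ![1, 1, -1, 1, -1, -1, 1, -1, -1, -1, 1, 1],
    ![1, 1, 1, -1, 1, -1, -1, 1, -1, -1, -1, 1],
    ![1, 1, 1, 1, -1, 1, -1, -1, 1, -1, -1, -1],
    ![1, -1, 1, 1, 1, -1, 1, -1, -1, 1, -1, -1],
    ![1, -1, -1, 1, 1, 1, -1, 1, -1, -1, 1, -1],
    ![1, -1, -1, -1, 1, 1, 1, -1, 1, -1, -1, 1],
    ![1, 1, -1, -1, -1, 1, 1, 1, -1, 1, -1, -1],
    ![1, -1, 1, -1, -1, -1, 1, 1, 1, -1, 1, -1]]

theorem had_twelve : Had (Fin 12) :=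
  had_of_int H12 0 (by decide +kernel) (by decide +kernel) (by decide +kernel)

theorem had_pow {n : ℕ} (h : Had (Fin n)) (a : ℕ) : Had (Fin (n ^ a)) := by
  induction a with
  | zero => exact had_one
  | succ a ih => exact ih.mul h

/-- Hadamard matrices of order `u^a * w^b` for `{u, w} = {2, 12}`. -/
theorem had_orders (a b : ℕ) : Had (Fin (2 ^ a * 12 ^ b)) :=
  (had_pow had_two a).mul (had_pow had_twelve b)

theorem sys_add {m n : ℕ} {c d : ℝ} (h : Sys (Fin m) c) (g : Sys (Fin n) d) :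
    Sys (Fin (m + n)) (c + d + 1) :=
  (h.glue g).congr finSumFinEquiv.symm

theorem sys_had {n : ℕ} (h : Had (Fin n)) : Sys (Fin n) (Real.sqrt n) := by
  have h1 := h.sys
  rwa [Fintype.card_fin] at h1

theorem sys_crude : ∀ r : ℕ, 1 ≤ r → Sys (Fin r) (5 * Real.sqrt r) := by
  intro r
  induction r using Nat.strong_induction_on with
  | _ r ih =>
    intro hr
    set k := Nat.log 2 r with hk
    have h1 : 2 ^ k ≤ r := Nat.pow_log_le_self 2 (by omega)
    have h2 : r < 2 ^ (k + 1) := Nat.lt_pow_succ_log_self (by norm_num) r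
    have hs := sys_had (had_pow had_two k)
    rcases Nat.eq_or_lt_of_le h1 with h3 | h3
    · rw [← h3]
      refine hs.mono ?_
      have := Real.sqrt_nonneg ((2 ^ k : ℕ) : ℝ)
      linarith
    · obtain ⟨t, ht⟩ := Nat.exists_eq_add_of_lt h3
      have ht1 : r = 2 ^ k + (t + 1) := by omega
      have ht2 : t + 1 < 2 ^ k := by
        rw [pow_succ] at h2
        omega
      have hp : 0 < 2 ^ k := by positivity
      have h4 := ih (t + 1) (by omega) (by omega)
      rw [ht1]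
      refine (sys_add hs h4).mono ?_
      -- numbers
      set A : ℝ := Real.sqrt ((2 ^ k : ℕ) : ℝ) with hA
      set B : ℝ := Real.sqrt ((t + 1 : ℕ) : ℝ) with hB
      have hA1 : 1 ≤ A := by
        rw [hA, Real.one_le_sqrt]
        exact_mod_cast hp
      have hAB : B ≤ A := by
        apply Real.sqrt_le_sqrt
        exact_mod_cast ht2.le
      have hB0 : 0 ≤ B := Real.sqrt_nonneg _
      have hA2 : A ^ 2 = ((2 ^ k : ℕ) : ℝ) := Real.sq_sqrt (by positivity)
      have hB2 : B ^ 2 = ((t + 1 : ℕ) : ℝ) := Real.sq_sqrt (by positivity)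
      have h5 : Real.sqrt ((2 ^ k + (t + 1) : ℕ) : ℝ) = Real.sqrt (A ^ 2 + B ^ 2) := by
        rw [hA2, hB2]
        push_cast
        ring_nf
      rw [h5]
      have h6 : (A + 5 * B + 1) / 5 ≤ Real.sqrt (A ^ 2 + B ^ 2) := by
        apply Real.le_sqrt_of_sq_le
        nlinarith [mul_nonneg hB0 (sub_nonneg.2 hAB), mul_nonneg (sub_nonneg.2 hA1) hB0,
          mul_nonneg (sub_nonneg.2 hA1) (sub_nonneg.2 hAB), sq_nonneg (A - 1), sq_nonneg (A - B)]
      linarith

end Pool.Agent.H37.Cube
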