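import Mathlib

set_option autoImplicit false

/-!
The mean of the absolute value of a signed sum is at least the mean for equal coefficients.
-/

namespace Pool.Agent.H37.Cube

open Finset

/-- The sign of `2k - N`. -/
def sg (N k : ℕ) : ℝ := if N < 2 * k then 1 else if 2 * k = N then 0 else -1

theorem abs_sg_le (N k : ℕ) : |sg N k| ≤ 1 := by
  unfold sg
  split_ifs <;> simp

theorem binsum (n : ℕ) :
    ∑ k ∈ range (n + 1), ((n.choose k : ℕ) : ℝ) * (sg (n + 1) (k + 1) - sg (n + 1) k) =
      2 * (n.choose (n / 2) : ℕ) := by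
  rcases Nat.even_or_odd' n with ⟨m, rfl | rfl⟩
  · have h1 : ∀ k, sg (2 * m + 1) (k + 1) - sg (2 * m + 1) k = if k = m then 2 else 0 := by
      intro k
      unfold sg
      split_ifs <;> first | omega | norm_num
    have h2 : 2 * m / 2 = m := by omega
    rw [h2]
    simp_rw [h1]
    simp only [mul_ite, mul_zero]
    rw [Finset.sum_ite_eq' (range (2 * m + 1)) m]
    rw [if_pos (by rw [mem_range]; omega)]
    ring
  · have h1 : ∀ k, sg (2 * m + 1 + 1) (k + 1) - sg (2 * m + 1 + 1) k =
        (if k = m then 1 else 0) + (if k = m + 1 then 1 else 0) := by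
      intro k
      unfold sg
      split_ifs <;> first | omega | norm_num
    have h2 : (2 * m + 1) / 2 = m := by omega
    rw [h2]
    simp_rw [h1]
    simp only [mul_add, mul_ite, mul_zero, mul_one, Finset.sum_add_distrib]
    rw [Finset.sum_ite_eq' (range (2 * m + 1 + 1)) m, Finset.sum_ite_eq' (range (2 * m + 1 + 1)) (m + 1)]
    rw [if_pos (by rw [mem_range]; omega), if_pos (by rw [mem_range]; omega)]
    have h3 : (2 * m + 1).choose (m + 1) = (2 * m + 1).choose m := by
      rw [← Nat.choose_symm_of_eq_add]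
      omega
    rw [h3]
    ring

theorem sum_sg_mul (n : ℕ) (i : Fin (n + 1)) :
    ∑ S : Finset (Fin (n + 1)), sg (n + 1) S.card * (if i ∈ S then 1 else -1) =
      2 * (n.choose (n / 2) : ℕ) := by
  have h0 : (Finset.univ : Finset (Finset (Fin (n + 1)))) =
      (insert i (Finset.univ.erase i)).powerset := by
    rw [Finset.insert_erase (Finset.mem_univ i), Finset.powerset_univ]
  have hi : i ∉ (Finset.univ.erase i : Finset (Fin (n + 1))) := Finset.notMem_erase i _
  have hc : (Finset.univ.erase i : Finset (Fin (n + 1))).card = n := by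
    rw [Finset.card_erase_of_mem (Finset.mem_univ i), Finset.card_univ, Fintype.card_fin]
    rfl
  rw [h0, Finset.sum_powerset_insert hi]
  have h1 : ∀ t ∈ (Finset.univ.erase i : Finset (Fin (n + 1))).powerset,
      sg (n + 1) t.card * (if i ∈ t then 1 else -1) = -sg (n + 1) t.card := by
    intro t ht
    have : i ∉ t := fun h => hi (Finset.mem_powerset.1 ht h)
    rw [if_neg this]
    ring
  have h2 : ∀ t ∈ (Finset.univ.erase i : Finset (Fin (n + 1))).powerset,
      sg (n + 1) (insert i t).card * (if i ∈ insert i t then 1 else -1) =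
        sg (n + 1) (t.card + 1) := by
    intro t ht
    have : i ∉ t := fun h => hi (Finset.mem_powerset.1 ht h)
    rw [if_pos (Finset.mem_insert_self i t), Finset.card_insert_of_notMem this]
    ring
  rw [Finset.sum_congr rfl h1, Finset.sum_congr rfl h2, ← Finset.sum_add_distrib]
  rw [Finset.sum_powerset_apply_card (fun k => -sg (n + 1) k + sg (n + 1) (k + 1)), hc]
  rw [← binsum n]
  refine Finset.sum_congr rfl fun k _ => ?_
  rw [nsmul_eq_mul]
  ring

theorem signs_bound (n : ℕ) (u : Fin (n + 1) → ℝ) :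
    2 * (n.choose (n / 2) : ℕ) * ∑ i, |u i| ≤
      ∑ S : Finset (Fin (n + 1)), |∑ i, (if i ∈ S then u i else -u i)| := by
  classical
  set T : Finset (Fin (n + 1)) := Finset.univ.filter (fun i => u i < 0) with hT
  let σ : Equiv.Perm (Finset (Fin (n + 1))) :=
    Function.Involutive.toPerm (fun S => symmDiff S T) (fun S => symmDiff_symmDiff_cancel_right T S)
  have hflip : ∀ (S : Finset (Fin (n + 1))) (i : Fin (n + 1)),
      (if i ∈ S then u i else -u i) = (if i ∈ σ S then |u i| else -|u i|) := by
    intro S i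
    have hs : i ∈ σ S ↔ (i ∈ S ∧ i ∉ T) ∨ (i ∈ T ∧ i ∉ S) := Finset.mem_symmDiff
    have ht : i ∈ T ↔ u i < 0 := by simp [hT]
    by_cases h1 : i ∈ S <;> by_cases h2 : u i < 0
    · have h3 : i ∉ σ S := by
        rw [hs, ht]
        tauto
      rw [if_pos h1, if_neg h3, abs_of_neg h2, neg_neg]
    · have h3 : i ∈ σ S := by
        rw [hs, ht]
        tauto
      rw [if_pos h1, if_pos h3, abs_of_nonneg (not_lt.1 h2)]
    · have h3 : i ∈ σ S := by
        rw [hs, ht]
        tauto
      rw [if_neg h1, if_pos h3, abs_of_neg h2]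
    · have h3 : i ∉ σ S := by
        rw [hs, ht]
        tauto
      rw [if_neg h1, if_neg h3, abs_of_nonneg (not_lt.1 h2)]
  calc 2 * (n.choose (n / 2) : ℕ) * ∑ i, |u i|
      = ∑ i, |u i| * (2 * (n.choose (n / 2) : ℕ)) := by
        rw [Finset.mul_sum]
        exact Finset.sum_congr rfl fun i _ => mul_comm _ _
    _ = ∑ i, |u i| * ∑ S : Finset (Fin (n + 1)), sg (n + 1) S.card * (if i ∈ S then 1 else -1) := by
        refine Finset.sum_congr rfl fun i _ => ?_
        rw [sum_sg_mul]
    _ = ∑ S : Finset (Fin (n + 1)), sg (n + 1) S.card * ∑ i, (if i ∈ S then |u i| else -|u i|) := by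
        simp_rw [Finset.mul_sum]
        rw [Finset.sum_comm]
        refine Finset.sum_congr rfl fun S _ => Finset.sum_congr rfl fun i _ => ?_
        split_ifs <;> ring
    _ = ∑ S : Finset (Fin (n + 1)),
          sg (n + 1) (σ S).card * ∑ i, (if i ∈ σ S then |u i| else -|u i|) := by
        rw [← Equiv.sum_comp σ]
    _ ≤ ∑ S : Finset (Fin (n + 1)), |∑ i, (if i ∈ S then u i else -u i)| := by
        refine Finset.sum_le_sum fun S _ => ?_
        rw [show ∑ i, (if i ∈ S then u i else -u i) = ∑ i, (if i ∈ σ S then |u i| else -|u i|) from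
          Finset.sum_congr rfl fun i _ => hflip S i]
        calc _ ≤ |sg (n + 1) (σ S).card * ∑ i, (if i ∈ σ S then |u i| else -|u i|)| := le_abs_self _
          _ = |sg (n + 1) (σ S).card| * |∑ i, (if i ∈ σ S then |u i| else -|u i|)| := abs_mul _ _
          _ ≤ 1 * |∑ i, (if i ∈ σ S then |u i| else -|u i|)| :=
            mul_le_mul_of_nonneg_right (abs_sg_le _ _) (abs_nonneg _)
          _ = _ := one_mul _

end Pool.Agent.H37.Cube
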